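import Pool.Agent.Lib.MP_16ad2f_co.Core

set_option autoImplicit false

open Finset Pool.Agent.Lib.MP_16ad2f_co

namespace Pool.Agent.Results.MP_16ad2f_co.Order1296

section Definitions

variable {G : Type} [Group G]

/-- The element `∑_{a ∈ A} a` of the group ring `ℤ[G]`. -/
noncomputable def elt (A : Finset G) : MonoidAlgebra ℤ G := ∑ a ∈ A, MonoidAlgebra.of ℤ G a

/-- The element `A^{(-1)} = ∑_{a ∈ A} a⁻¹` of the group ring `ℤ[G]`. -/
noncomputable def eltInv (A : Finset G) : MonoidAlgebra ℤ G := ∑ a ∈ A, MonoidAlgebra.of ℤ G a⁻¹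

/-- `D` is a `(v, k, lam, k - lam)`-difference set in the group `G` of order `v`:
`|D| = k` and `D D^{(-1)} = (k - lam) 1 + lam G` in `ℤ[G]`. -/
structure IsDifferenceSet [Fintype G] (D : Finset G) (k lam : ℕ) : Prop where
  card : D.card = k
  mul_inv : elt D * eltInv D = ((k : ℤ) - lam) • 1 + (lam : ℤ) • elt univ

/-- The set `S` of subsets of `G` is a reduced `(v, k, lam, k - lam; |S|)`-linking system of
difference sets in `G`, with the integers `μ` and `ν`. -/
structure IsReducedLinkingSystem [Fintype G] (S : Finset (Finset G)) (k lam : ℕ) (μ ν : ℤ) :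
    Prop where
  two_le : 2 ≤ S.card
  diff : ∀ D ∈ S, IsDifferenceSet D k lam
  link : ∀ D ∈ S, ∀ D' ∈ S, D ≠ D' → ∃ E : Finset G, IsDifferenceSet E k lam ∧
    elt D * eltInv D' = (μ - ν) • elt E + ν • elt univ

end Definitions

section Count

variable {G : Type} [Group G] [Fintype G] [DecidableEq G]

theorem elt_apply (A : Finset G) (g : G) : (elt A).coeff g = if g ∈ A then 1 else 0 := by
  classical
  unfold elt
  rw [MonoidAlgebra.coeff_sum, Finsupp.finset_sum_apply]
  have h : ∀ a ∈ A, ((MonoidAlgebra.of ℤ G a).coeff) g = if a = g then 1 else 0 := by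
    intro a _
    rw [MonoidAlgebra.of_apply, MonoidAlgebra.coeff_single_apply]
  rw [sum_congr rfl h, sum_ite_eq']

theorem mul_apply (A B : Finset G) (g : G) :
    (elt A * eltInv B).coeff g =
      ((A ×ˢ B).filter (fun p : G × G => p.1 * p.2⁻¹ = g)).card := by
  classical
  unfold elt eltInv
  rw [sum_mul_sum, MonoidAlgebra.coeff_sum, Finsupp.finset_sum_apply, card_filter, sum_product]
  push_cast
  refine sum_congr rfl fun a _ => ?_
  rw [MonoidAlgebra.coeff_sum, Finsupp.finset_sum_apply]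
  refine sum_congr rfl fun b _ => ?_
  rw [← map_mul, MonoidAlgebra.of_apply, MonoidAlgebra.coeff_single_apply]

theorem one_apply (g : G) : (1 : MonoidAlgebra ℤ G).coeff g = if g = 1 then 1 else 0 := by
  rw [MonoidAlgebra.one_def, MonoidAlgebra.coeff_single_apply]
  by_cases h : g = 1
  · rw [if_pos h, if_pos h.symm]
  · rw [if_neg h, if_neg (fun h' => h h'.symm)]

theorem card_pairs_one (D : Finset G) :
    ((D ×ˢ D).filter (fun p : G × G => p.1 * p.2⁻¹ = 1)).card = D.card := by
  refine card_bij' (fun p _ => p.1) (fun a _ => (a, a)) ?_ ?_ ?_ ?_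
  · intro p hp
    exact (mem_product.1 (mem_filter.1 hp).1).1
  · intro a ha
    exact mem_filter.2 ⟨mem_product.2 ⟨ha, ha⟩, mul_inv_cancel a⟩
  · intro p hp
    have h := (mem_filter.1 hp).2
    rw [mul_inv_eq_one] at h
    exact Prod.ext rfl h
  · intro a _
    rfl

theorem isDifferenceSet {D : Finset G} {k lam : ℕ} (hc : D.card = k)
    (h : ∀ g : G, g ≠ 1 →
      ((D ×ˢ D).filter (fun p : G × G => p.1 * p.2⁻¹ = g)).card = lam) :
    IsDifferenceSet D k lam := by
  refine ⟨hc, ?_⟩
  apply MonoidAlgebra.coeff_injective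
  ext g
  rw [mul_apply, MonoidAlgebra.coeff_add, Finsupp.add_apply, MonoidAlgebra.coeff_smul_apply,
    MonoidAlgebra.coeff_smul_apply, one_apply, elt_apply, if_pos (mem_univ g)]
  by_cases hg : g = 1
  · subst hg
    rw [card_pairs_one, hc, if_pos rfl, smul_eq_mul, smul_eq_mul]
    ring
  · rw [h g hg, if_neg hg, smul_eq_mul, smul_eq_mul]
    ring

theorem link {D D' E : Finset G} {μ ν : ℤ}
    (h : ∀ g : G, ((((D ×ˢ D').filter (fun p : G × G => p.1 * p.2⁻¹ = g)).card : ℕ) : ℤ)
      = (μ - ν) * (if g ∈ E then (1 : ℤ) else 0) + ν) :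
    elt D * eltInv D' = (μ - ν) • elt E + ν • elt univ := by
  apply MonoidAlgebra.coeff_injective
  ext g
  rw [mul_apply, MonoidAlgebra.coeff_add, Finsupp.add_apply, MonoidAlgebra.coeff_smul_apply,
    MonoidAlgebra.coeff_smul_apply, elt_apply, elt_apply, if_pos (mem_univ g), h g, smul_eq_mul,
    smul_eq_mul, mul_one]

end Count

/-- **A linking system of difference sets in a group that is not a 2-group.** The abelian group
`(ℤ/6)^4` of order `1296 = 2^4 · 3^4` contains a reduced `(1296, 630, 306, 324; 2)`-linking system of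
(nontrivial) difference sets, with `μ = 297` and `ν = 315`. -/
theorem result :
    Fintype.card (Multiplicative ((ZMod 6 × ZMod 6) × (ZMod 6 × ZMod 6))) = 1296 ∧
    (¬ ∃ m : ℕ, (1296 : ℕ) = 2 ^ m) ∧
    ∃ S : Finset (Finset (Multiplicative ((ZMod 6 × ZMod 6) × (ZMod 6 × ZMod 6)))),
      S.card = 2 ∧ IsReducedLinkingSystem S 630 306 297 315 := by
  refine ⟨cardGG, ?_, ?_⟩
  · rintro ⟨m, hm⟩
    have h3 : 3 ∣ 2 ^ m := by rw [← hm]; norm_num
    have h4 : 3 ∣ 2 := Nat.Prime.dvd_of_dvd_pow Nat.prime_three h3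
    omega
  · have hcard : ({neg (F (f1 h6)), neg (F (f2 h6))} : Finset (Finset GG)).card = 2 :=
      card_pair FF_ne
    refine ⟨{neg (F (f1 h6)), neg (F (f2 h6))}, hcard, ?_, ?_, ?_⟩
    · rw [hcard]
    · intro D hD
      rw [mem_insert, mem_singleton] at hD
      rcases hD with rfl | rfl
      · exact isDifferenceSet (card_F (sgn1 P6) (sum1 S6)) (ds_F (sgn1 P6) (sum1 S6) (corr11 P6))
      · exact isDifferenceSet (card_F (sgn2 P6) (sum2 S6)) (ds_F (sgn2 P6) (sum2 S6) (corr22 P6))
    · intro D hD D' hD' hne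
      rw [mem_insert, mem_singleton] at hD hD'
      rcases hD with rfl | rfl <;> rcases hD' with rfl | rfl
      · exact absurd rfl hne
      · exact ⟨neg (F (f3 h6)), isDifferenceSet (card_F (sgn3 P6) (sum3 S6))
          (ds_F (sgn3 P6) (sum3 S6) (corr33 P6)),
          link (link_F (sgn1 P6) (sum1 S6) (sgn2 P6) (sum2 S6) (sgn3 P6) (corr12 P6))⟩
      · exact ⟨neg (F (fun x => f3 h6 (-x))),
          isDifferenceSet (card_F (fun x => sgn3 P6 _) (sum3' S6))
            (ds_F (fun x => sgn3 P6 _) (sum3' S6) (corr33' P6)),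
          link (link_F (sgn2 P6) (sum2 S6) (sgn1 P6) (sum1 S6) (fun x => sgn3 P6 _)
            (corr21 P6))⟩
      · exact absurd rfl hne

end Pool.Agent.Results.MP_16ad2f_co.Order1296
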